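import Pool.Agent.Helper99.WP.GoalsK

set_option autoImplicit false

/-! # Maximum principle for static balanced elliptic walks -/

open Finset

namespace Pool.Agent.Helper65.WP

open Pool.Agent.Helper99.WP Pool.Agent.Helper99.ERW

theorem MXP : MXP_stmt := by
  classical
  intro d κ p hκ hE D u hL hB x₁ hx₁
  by_contra hcon
  push Not at hcon
  have hd : Nonempty (Fin d) := by
    by_contra hne
    have h := (hE x₁).2
    rw [not_nonempty_iff] at hne
    simp at h
  obtain ⟨l₀⟩ := hd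
  obtain ⟨x₀, hx₀, hmax⟩ := D.exists_max_image u ⟨x₁, hx₁⟩
  have hM : 0 < u x₀ := lt_of_lt_of_le hcon (hmax x₁ hx₁)
  obtain ⟨x, hx, hxm⟩ := (D.filter (fun z => u z = u x₀)).exists_max_image (fun z => z l₀)
    ⟨x₀, mem_filter.2 ⟨hx₀, rfl⟩⟩
  obtain ⟨hxD, hxu⟩ := mem_filter.1 hx
  have hup : ∀ l, u (x + ev l) ≤ u x₀ := by
    intro l
    by_cases h : x + ev l ∈ D
    · exact hmax _ h
    · exact ((hB x hxD l).1 h).trans hM.le
  have hdn : ∀ l, u (x - ev l) ≤ u x₀ := by
    intro l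
    by_cases h : x - ev l ∈ D
    · exact hmax _ h
    · exact ((hB x hxD l).2 h).trans hM.le
  have hp : ∀ l, 0 < p x l := fun l => lt_of_lt_of_le hκ ((hE x).1 l)
  have hterm : ∀ l ∈ (univ : Finset (Fin d)),
      p x l * (u (x + ev l) + u (x - ev l) - 2 * u x) ≤ 0 := by
    intro l _
    refine mul_nonpos_of_nonneg_of_nonpos (hp l).le ?_
    have := hup l
    have := hdn l
    rw [hxu]; linarith
  have hsum : ∑ l, p x l * (u (x + ev l) + u (x - ev l) - 2 * u x) = 0 :=
    le_antisymm (sum_nonpos hterm) (hL x hxD)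
  have hz := (sum_eq_zero_iff_of_nonpos hterm).1 hsum l₀ (mem_univ _)
  have h1 : u (x + ev l₀) + u (x - ev l₀) - 2 * u x = 0 := by
    rcases mul_eq_zero.1 hz with h | h
    · exact absurd h (hp l₀).ne'
    · exact h
  have h2 : u (x + ev l₀) = u x₀ := by
    have := hup l₀
    have := hdn l₀
    rw [hxu] at h1
    linarith
  by_cases h : x + ev l₀ ∈ D
  · have h3 := hxm _ (mem_filter.2 ⟨h, h2⟩)
    have h4 : (x + ev l₀) l₀ = x l₀ + 1 := by
      unfold ev
      rw [Pi.add_apply, Pi.single_eq_same]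
    rw [h4] at h3
    omega
  · have : u (x + ev l₀) ≤ 0 := (hB x hxD l₀).1 h
    rw [h2] at this
    linarith

end Pool.Agent.Helper65.WP
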